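import Pool.Agent.H41.AUG.Stmts

set_option autoImplicit false

/-!
# AUG-DEL: deleting the graph of a permutation disjoint from a maximum matching
-/

namespace Pool.Agent.H772.AUG

open Pool.Agent.H41.AUG

variable {n : ℕ}

theorem mem_nbr {U : Finset (Cell n)} {Z : Finset (Fin n)} {c : Fin n} :
    c ∈ nbr U Z ↔ ∃ s ∈ Z, (s, c) ∈ U := by
  unfold nbr
  rw [Finset.mem_filter]
  exact ⟨fun h => h.2, fun h => ⟨Finset.mem_univ _, h⟩⟩

theorem nbr_mono {U V : Finset (Cell n)} (h : V ⊆ U) (Z : Finset (Fin n)) :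
    nbr V Z ⊆ nbr U Z := by
  intro c hc
  obtain ⟨s, hs, hsc⟩ := mem_nbr.1 hc
  exact mem_nbr.2 ⟨s, hs, h hsc⟩

theorem mem_gr {g : Equiv.Perm (Fin n)} {s c : Fin n} : (s, c) ∈ gr g ↔ c = g s := by
  unfold gr
  rw [Finset.mem_image]
  constructor
  · rintro ⟨i, -, hi⟩
    have h1 : i = s := congrArg Prod.fst hi
    have h2 : g i = c := congrArg Prod.snd hi
    rw [← h2, h1]
  · intro h
    exact ⟨s, Finset.mem_univ _, by rw [h]⟩

/-- the columns of the cells of `U` in row `x` -/
theorem row_card (U : Finset (Cell n)) (x : Fin n) :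
    (U.filter fun p => p.1 = x).card = (Finset.univ.filter fun c => (x, c) ∈ U).card := by
  refine Finset.card_nbij' (fun p => p.2) (fun c => (x, c)) ?_ ?_ ?_ ?_
  · intro p hp
    have hp' := Finset.mem_filter.1 (Finset.mem_coe.1 hp)
    refine Finset.mem_coe.2 (Finset.mem_filter.2 ⟨Finset.mem_univ _, ?_⟩)
    have h1 : (x, p.2) = p := Prod.ext hp'.2.symm rfl
    rw [h1]
    exact hp'.1
  · intro c hc
    have hc' := Finset.mem_filter.1 (Finset.mem_coe.1 hc)
    exact Finset.mem_coe.2 (Finset.mem_filter.2 ⟨hc'.2, rfl⟩)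
  · intro p hp
    have hp' := Finset.mem_filter.1 (Finset.mem_coe.1 hp)
    exact Prod.ext hp'.2.symm rfl
  · intro c hc
    rfl

theorem row_le_nbr {U : Finset (Cell n)} {Z : Finset (Fin n)} {x : Fin n} (hx : x ∈ Z) :
    (Finset.univ.filter fun c => (x, c) ∈ U) ⊆ nbr U Z := by
  intro c hc
  exact mem_nbr.2 ⟨x, hx, (Finset.mem_filter.1 hc).2⟩

theorem del' (hh : S_HALLD) : S_DEL := by
  intro n m e U M g S S' hm hU hS hMU hM hn he hg hS'
  have hMV : M ⊆ U \ gr g := by
    intro p hp
    exact Finset.mem_sdiff.2 ⟨hMU hp, fun h => (Finset.disjoint_left.1 hg h) hp⟩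
  have hV : DefLe (U \ gr g) m := (hh n m (U \ gr g)).2.1 M hMV hM hn
  have hVU : U \ gr g ⊆ U := Finset.sdiff_subset
  have hSS' : S' ⊆ S := by
    apply hS'.2
    have h1 : S.card = (nbr U S).card + m := hS.1
    have h2 := hV S
    have h3 := Finset.card_le_card (nbr_mono hVU S)
    change S.card = (nbr (U \ gr g) S).card + m
    omega
  have hT : S'.card = (nbr (U \ gr g) S').card + m := hS'.1
  refine ⟨hV, hSS', ?_, ?_⟩
  · -- the size of `S'`
    obtain ⟨x, hx⟩ : S'.Nonempty := Finset.card_pos.1 (by omega)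
    have h1 := he x
    rw [row_card] at h1
    have h2 : (Finset.univ.filter fun c => (x, c) ∈ U) ⊆
        insert (g x) (Finset.univ.filter fun c => (x, c) ∈ U \ gr g) := by
      intro c hc
      by_cases hcg : c = g x
      · exact Finset.mem_insert.2 (Or.inl hcg)
      · refine Finset.mem_insert.2 (Or.inr (Finset.mem_filter.2 ⟨Finset.mem_univ _, ?_⟩))
        exact Finset.mem_sdiff.2 ⟨(Finset.mem_filter.1 hc).2, fun h => hcg (mem_gr.1 h)⟩
    have h3 := Finset.card_le_card h2
    have h4 := Finset.card_insert_le (g x) (Finset.univ.filter fun c => (x, c) ∈ U \ gr g)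
    have h5 := Finset.card_le_card (row_le_nbr (U := U \ gr g) hx)
    omega
  · -- the rows which are not in `S'`
    have hsplit : (M.filter fun p => p.1 ∈ S').card + (M.filter fun p => ¬ p.1 ∈ S').card =
        M.card := Finset.card_filter_add_card_filter_not (s := M) (fun p => p.1 ∈ S')
    have himg1 : (M.filter fun p => p.1 ∈ S').image Prod.snd ⊆ nbr (U \ gr g) S' := by
      intro c hc
      obtain ⟨p, hp, hpc⟩ := Finset.mem_image.1 hc
      have hp' := Finset.mem_filter.1 hp
      refine mem_nbr.2 ⟨p.1, hp'.2, ?_⟩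
      have h1 : (p.1, c) = p := Prod.ext rfl hpc.symm
      rw [h1]
      exact hMV hp'.1
    have hcard1 : ((M.filter fun p => p.1 ∈ S').image Prod.snd).card =
        (M.filter fun p => p.1 ∈ S').card := by
      refine Finset.card_image_of_injOn ?_
      intro p hp q hq hpq
      exact hM.2 p (Finset.mem_filter.1 (Finset.mem_coe.1 hp)).1 q
        (Finset.mem_filter.1 (Finset.mem_coe.1 hq)).1 hpq
    have himg2 : (M.filter fun p => ¬ p.1 ∈ S').image Prod.fst ⊆ S'ᶜ := by
      intro s hs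
      obtain ⟨p, hp, hps⟩ := Finset.mem_image.1 hs
      rw [Finset.mem_compl, ← hps]
      exact (Finset.mem_filter.1 hp).2
    have hcard2 : ((M.filter fun p => ¬ p.1 ∈ S').image Prod.fst).card =
        (M.filter fun p => ¬ p.1 ∈ S').card := by
      refine Finset.card_image_of_injOn ?_
      intro p hp q hq hpq
      exact hM.1 p (Finset.mem_filter.1 (Finset.mem_coe.1 hp)).1 q
        (Finset.mem_filter.1 (Finset.mem_coe.1 hq)).1 hpq
    have h1 := Finset.card_le_card himg1
    have h2 := Finset.card_le_card himg2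
    have h3 : S'ᶜ.card = n - S'.card := by
      rw [Finset.card_compl, Fintype.card_fin]
    have h4 : S'.card ≤ n := by
      have := Finset.card_le_univ S'
      rwa [Fintype.card_fin] at this
    have heq1 : (M.filter fun p => p.1 ∈ S').image Prod.snd = nbr (U \ gr g) S' :=
      Finset.eq_of_subset_of_card_le himg1 (by omega)
    have heq2 : (M.filter fun p => ¬ p.1 ∈ S').image Prod.fst = S'ᶜ :=
      Finset.eq_of_subset_of_card_le himg2 (by omega)
    intro s hs hsS'
    have h5 : s ∈ (M.filter fun p => ¬ p.1 ∈ S').image Prod.fst := by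
      rw [heq2, Finset.mem_compl]
      exact hsS'
    obtain ⟨p, hp, hps⟩ := Finset.mem_image.1 h5
    have hpM : (s, p.2) ∈ M := by
      have h6 : (s, p.2) = p := Prod.ext hps.symm rfl
      rw [h6]
      exact (Finset.mem_filter.1 hp).1
    refine ⟨p.2, mem_nbr.2 ⟨s, hs, hMU hpM⟩, hpM, ?_⟩
    have hno : ∀ x ∈ S', (x, p.2) ∉ U \ gr g := by
      intro x hx hxV
      have h7 : p.2 ∈ nbr (U \ gr g) S' := mem_nbr.2 ⟨x, hx, hxV⟩
      rw [← heq1] at h7
      obtain ⟨q, hq, hqc⟩ := Finset.mem_image.1 h7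
      have hq' := Finset.mem_filter.1 hq
      have h8 : q = (s, p.2) := hM.2 q hq'.1 (s, p.2) hpM hqc
      apply hsS'
      have h9 := hq'.2
      rw [h8] at h9
      exact h9
    rw [Finset.card_le_one]
    intro x hx y hy
    have hx' := Finset.mem_filter.1 hx
    have hy' := Finset.mem_filter.1 hy
    have hgx : p.2 = g x := by
      by_contra hcon
      exact hno x hx'.1 (Finset.mem_sdiff.2 ⟨hx'.2, fun h => hcon (mem_gr.1 h)⟩)
    have hgy : p.2 = g y := by
      by_contra hcon
      exact hno y hy'.1 (Finset.mem_sdiff.2 ⟨hy'.2, fun h => hcon (mem_gr.1 h)⟩)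
    exact g.injective (hgx.symm.trans hgy)

theorem del (hh : S_HALLD) (_ht : S_TIGHT) : S_DEL := del' hh

theorem nonrob (hh : S_HALLD) (_ht : S_TIGHT) : S_NONROB := by
  intro n m e U M S B hm hU hS hMU hM hn he hBS hB
  have hT : S.card = (nbr U S).card + m := hS.1
  have hrow : ∀ x ∈ S, e ≤ ((nbr U S).filter fun c => (x, c) ∈ U).card := by
    intro x hx
    have h1 := he x
    rw [row_card] at h1
    refine h1.trans (Finset.card_le_card ?_)
    intro c hc
    exact Finset.mem_filter.2 ⟨row_le_nbr hx hc, (Finset.mem_filter.1 hc).2⟩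
  obtain ⟨x0, hx0⟩ : S.Nonempty := Finset.card_pos.1 (by omega)
  have hbig : e + m ≤ S.card := by
    have h1 := hrow x0 hx0
    have h2 := Finset.card_filter_le (nbr U S) (fun c => (x0, c) ∈ U)
    omega
  refine ⟨hbig, ?_⟩
  -- the columns of the rows which are not robust
  have hcol : ∀ s ∈ B, ∃ c, c ∈ nbr U S ∧ (s, c) ∈ M ∧
      e ≤ (S.filter fun x => (x, c) ∉ U).card + 1 := by
    intro s hs
    have h1 := hB s hs
    unfold Rob at h1
    push Not at h1
    obtain ⟨g, hg, S', hS', hsS'⟩ := h1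
    obtain ⟨-, hSS', hcard, hex⟩ := del' hh n m e U M g S S' hm hU hS hMU hM hn he hg hS'
    obtain ⟨c, hc, hcM, hc1⟩ := hex s (hBS hs) hsS'
    refine ⟨c, hc, hcM, ?_⟩
    have h2 : (S'.filter fun x => (x, c) ∈ U).card + (S'.filter fun x => (x, c) ∉ U).card =
        S'.card := Finset.card_filter_add_card_filter_not (s := S') (fun x => (x, c) ∈ U)
    have h3 : (S'.filter fun x => (x, c) ∉ U).card ≤ (S.filter fun x => (x, c) ∉ U).card :=
      Finset.card_le_card (Finset.filter_subset_filter _ hSS')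
    omega
  choose! col hcol1 hcol2 hcol3 using hcol
  have hinj : Set.InjOn col (B : Set (Fin n)) := by
    intro s hs t ht hst
    have h1 := hcol2 s (Finset.mem_coe.1 hs)
    have h2 := hcol2 t (Finset.mem_coe.1 ht)
    rw [hst] at h1
    have h3 := hM.2 _ h1 _ h2 rfl
    exact congrArg Prod.fst h3
  -- double counting of the cells which are not in `U`
  have hdc : ∑ c ∈ nbr U S, (((S.filter fun x => (x, c) ∉ U).card : ℕ) : ℤ) ≤
      (S.card : ℤ) * ((S.card : ℤ) - m - e) := by
    have h1 : ∑ c ∈ nbr U S, (((S.filter fun x => (x, c) ∉ U).card : ℕ) : ℤ) =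
        ∑ x ∈ S, ((((nbr U S).filter fun c => (x, c) ∉ U).card : ℕ) : ℤ) := by
      have h2 : ∀ c ∈ nbr U S, (((S.filter fun x => (x, c) ∉ U).card : ℕ) : ℤ) =
          ∑ x ∈ S, if (x, c) ∉ U then (1 : ℤ) else 0 := by
        intro c _
        rw [Finset.card_filter]
        push_cast
        rfl
      have h3 : ∀ x ∈ S, ((((nbr U S).filter fun c => (x, c) ∉ U).card : ℕ) : ℤ) =
          ∑ c ∈ nbr U S, if (x, c) ∉ U then (1 : ℤ) else 0 := by
        intro x _
        rw [Finset.card_filter]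
        push_cast
        rfl
      rw [Finset.sum_congr rfl h2, Finset.sum_congr rfl h3, Finset.sum_comm]
    rw [h1]
    have h4 : ∀ x ∈ S, ((((nbr U S).filter fun c => (x, c) ∉ U).card : ℕ) : ℤ) ≤
        (S.card : ℤ) - m - e := by
      intro x hx
      have h5 : ((nbr U S).filter fun c => (x, c) ∈ U).card +
          ((nbr U S).filter fun c => (x, c) ∉ U).card = (nbr U S).card :=
        Finset.card_filter_add_card_filter_not (s := nbr U S) (fun c => (x, c) ∈ U)
      have h6 := hrow x hx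
      omega
    calc ∑ x ∈ S, ((((nbr U S).filter fun c => (x, c) ∉ U).card : ℕ) : ℤ)
        ≤ ∑ _x ∈ S, ((S.card : ℤ) - m - e) := Finset.sum_le_sum h4
      _ = (S.card : ℤ) * ((S.card : ℤ) - m - e) := by
          rw [Finset.sum_const, nsmul_eq_mul]
  have hB1 : (B.card : ℤ) * (e - 1) ≤
      ∑ s ∈ B, (((S.filter fun x => (x, col s) ∉ U).card : ℕ) : ℤ) := by
    calc (B.card : ℤ) * (e - 1) = ∑ _s ∈ B, ((e : ℤ) - 1) := by
          rw [Finset.sum_const, nsmul_eq_mul]
      _ ≤ _ := by
          refine Finset.sum_le_sum fun s hs => ?_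
          have h1 := hcol3 s hs
          omega
  have hB2 : ∑ s ∈ B, (((S.filter fun x => (x, col s) ∉ U).card : ℕ) : ℤ) =
      ∑ c ∈ B.image col, (((S.filter fun x => (x, c) ∉ U).card : ℕ) : ℤ) := by
    rw [Finset.sum_image]
    intro s hs t ht hst
    exact hinj hs ht hst
  have hB3 : ∑ c ∈ B.image col, (((S.filter fun x => (x, c) ∉ U).card : ℕ) : ℤ) ≤
      ∑ c ∈ nbr U S, (((S.filter fun x => (x, c) ∉ U).card : ℕ) : ℤ) := by
    refine Finset.sum_le_sum_of_subset_of_nonneg ?_ ?_
    · intro c hc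
      obtain ⟨s, hs, hsc⟩ := Finset.mem_image.1 hc
      rw [← hsc]
      exact hcol1 s hs
    · intro c _ _
      positivity
  calc (B.card : ℤ) * (e - 1)
      ≤ ∑ s ∈ B, (((S.filter fun x => (x, col s) ∉ U).card : ℕ) : ℤ) := hB1
    _ = ∑ c ∈ B.image col, (((S.filter fun x => (x, c) ∉ U).card : ℕ) : ℤ) := hB2
    _ ≤ ∑ c ∈ nbr U S, (((S.filter fun x => (x, c) ∉ U).card : ℕ) : ℤ) := hB3
    _ ≤ (S.card : ℤ) * ((S.card : ℤ) - m - e) := hdc

end Pool.Agent.H772.AUG
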